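import Pool.Agent.helper8.GD.Spec

/-! gd:AT, the asymptotic formula for almost all `N`. -/

set_option autoImplicit false

namespace GD

open Finset ArithmeticFunction
open Pool.Agent.helper74.TG (ee gb)

lemma AT_log : Filter.Tendsto (fun X : ℕ => Real.log X) Filter.atTop Filter.atTop :=
  Real.tendsto_log_atTop.comp tendsto_natCast_atTop_atTop

lemma AT_wX (X C : ℕ) (h : 1 ≤ Real.log X) : (wX X C : ℝ) ≤ Real.log X ^ C ∧ 1 ≤ wX X C := by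
  constructor
  · exact Nat.floor_le (by positivity)
  · exact Nat.one_le_floor_iff _ |>.mpr (one_le_pow₀ h)

lemma AT_ws (C S : ℕ) (ε : ℝ) (hε : 0 < ε) : ∀ᶠ X : ℕ in Filter.atTop,
    (wX X C : ℝ) ^ ⌈(S : ℝ) * Real.log (Real.log X)⌉₊ ≤ (X : ℝ) ^ ε := by
  have h1 : ∀ᶠ x : ℝ in Filter.atTop, Real.log x ^ 2 ≤ ε / (C * (S + 1) + 1) * x := by
    have := (Real.isLittleO_pow_log_id_atTop (n := 2)).bound (show 0 < ε / ((C : ℝ) * (S + 1) + 1) by positivity)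
    filter_upwards [this, Filter.eventually_ge_atTop (1 : ℝ)] with x hx hx1
    rw [Real.norm_of_nonneg (by positivity), id, Real.norm_of_nonneg (by linarith)] at hx
    exact hx
  have h2 : ∀ᶠ x : ℝ in Filter.atTop, 1 ≤ Real.log x :=
    Real.tendsto_log_atTop.eventually_ge_atTop 1
  filter_upwards [AT_log.eventually h1, AT_log.eventually h2, AT_log.eventually_ge_atTop 1,
    Filter.eventually_ge_atTop 1] with X hX1 hX2 hX3 hX4
  set L := Real.log X with hL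
  set l := Real.log L with hl
  have hL0 : 0 < L := by linarith
  have hw := (AT_wX X C hX3).1
  have hs : (⌈(S : ℝ) * l⌉₊ : ℝ) ≤ S * l + 1 := (Nat.ceil_lt_add_one (by positivity)).le
  set s := ⌈(S : ℝ) * l⌉₊
  have hX0 : (0 : ℝ) < X := by exact_mod_cast hX4
  calc (wX X C : ℝ) ^ s ≤ (L ^ C) ^ s := pow_le_pow_left₀ (Nat.cast_nonneg _) hw s
    _ = Real.exp (l * (C * s)) := by
        rw [← pow_mul, ← Real.exp_log hL0, ← hl, ← Real.exp_nat_mul]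
        push_cast
        congr 1
        ring
    _ ≤ Real.exp (ε * L) := by
        apply Real.exp_le_exp.mpr
        have hC : (0 : ℝ) ≤ C := Nat.cast_nonneg _
        have e1 : l * (C * s) ≤ l * (C * (S * l + 1)) := by
          apply mul_le_mul_of_nonneg_left _ (by linarith)
          exact mul_le_mul_of_nonneg_left hs hC
        have e2 : l * (C * (S * l + 1)) ≤ (C * (S + 1) + 1) * l ^ 2 := by
          have hS : (0 : ℝ) ≤ S := Nat.cast_nonneg _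
          have hl2 : l ≤ l ^ 2 := by nlinarith
          have : C * l ≤ C * l ^ 2 := mul_le_mul_of_nonneg_left hl2 hC
          nlinarith [sq_nonneg l]
        have e3 : (C * (S + 1) + 1) * l ^ 2 ≤ ε * L := by
          calc ((C : ℝ) * (S + 1) + 1) * l ^ 2 ≤ (C * (S + 1) + 1) * (ε / (C * (S + 1) + 1) * L) :=
                mul_le_mul_of_nonneg_left hX1 (by positivity)
            _ = ε * L := by field_simp
        linarith
    _ = (X : ℝ) ^ ε := by rw [Real.rpow_def_of_pos hX0, mul_comm]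

lemma AT_cw (hCW : CW_stmt) (C : ℕ) : ∀ᶠ X : ℕ in Filter.atTop,
    0 ≤ cw (wX X C) ∧ cw (wX X C) ≤ Real.log X := by
  obtain ⟨C', hC', h⟩ := hCW
  have h1 : ∀ᶠ x : ℝ in Filter.atTop, Real.log x ≤ 1 / (C' * (C + 1)) * x := by
    have := (Real.isLittleO_pow_log_id_atTop (n := 1)).bound (show 0 < 1 / (C' * ((C : ℝ) + 1)) by positivity)
    filter_upwards [this, Filter.eventually_ge_atTop (1 : ℝ)] with x hx hx1
    rw [pow_one, id, Real.norm_of_nonneg (Real.log_nonneg hx1), Real.norm_of_nonneg (by linarith)] at hx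
    exact hx
  filter_upwards [AT_log.eventually h1, AT_log.eventually_ge_atTop 1] with X hX1 hX3
  rcases lt_or_ge (wX X C) 2 with hw | hw
  · have : Ps (wX X C) = ∅ := by
      unfold Ps
      rw [Finset.filter_eq_empty_iff]
      intro l hl hp
      rw [Finset.mem_Icc] at hl
      have := hp.two_le
      omega
    unfold cw
    rw [this, Finset.prod_empty]
    exact ⟨zero_le_one, hX3⟩
  · obtain ⟨hc1, hc2⟩ := h _ hw
    refine ⟨by linarith, hc2.trans ?_⟩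
    have hL0 : 0 < Real.log X := by linarith
    have hw0 : (0 : ℝ) < (wX X C : ℝ) := by
      have : 0 < wX X C := by omega
      exact_mod_cast this
    have e1 : Real.log (wX X C) ≤ C * Real.log (Real.log X) := by
      rw [← Real.log_pow]
      exact Real.log_le_log hw0 (AT_wX X C hX3).1
    have hl0 : 0 ≤ Real.log (Real.log X) := Real.log_nonneg hX3
    calc C' * Real.log (wX X C) ≤ C' * (C * Real.log (Real.log X)) :=
          mul_le_mul_of_nonneg_left e1 hC'.le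
      _ ≤ C' * ((C + 1) * Real.log (Real.log X)) := by
          apply mul_le_mul_of_nonneg_left _ hC'.le
          nlinarith
      _ ≤ C' * ((C + 1) * (1 / (C' * (C + 1)) * Real.log X)) := by
          apply mul_le_mul_of_nonneg_left _ hC'.le
          exact mul_le_mul_of_nonneg_left hX1 (by positivity)
      _ = Real.log X := by field_simp

lemma AT_exp (hTR3 : TR3_stmt) (X w s K A₁ : ℕ) (Q : Finset ℕ) (ξ : Finset ℕ → ℝ) (u : ℕ → ℝ)
    (α θ θ' : ℝ) (hw : 1 ≤ w) (hL : 1 ≤ Real.log X) (hX : 1 ≤ X) (hθ : 0 ≤ θ)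
    (hQ : ∀ l ∈ Q, l.Prime ∧ w < l)
    (hξ : Cf Q ξ (K + 1) (Real.log X ^ K) ((X : ℝ) ^ θ)) (hws : (w : ℝ) ^ s * (X : ℝ) ^ θ ≤ (X : ℝ) ^ θ')
    (hES : ∀ c : ℕ → ℕ, Cls c → ∑ d ∈ Icc 1 ⌊(X : ℝ) ^ θ'⌋₊ with Squarefree d,
      ((2 * (K + 1) : ℕ) : ℝ) ^ d.primeFactors.card * ‖Sd X u d (c d) α‖ ≤
        X / Real.log X ^ (A₁ + K)) :
    ‖∑ n ∈ Ioc 0 X, ((u n * Bt w s n * Fv Q ξ n : ℝ) : ℂ) * ee (n * α)‖ ≤ X / Real.log X ^ A₁ := by
  have hX' : (1 : ℝ) ≤ X := by exact_mod_cast hX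
  obtain ⟨c, hc, hb⟩ := hTR3 X w s (K + 1) (Real.log X ^ K) ((X : ℝ) ^ θ) Q ξ u α hw (by omega)
    (by positivity) (Real.one_le_rpow hX' hθ) hQ hξ
  refine hb.trans ?_
  have h1 : ∑ d ∈ Icc 1 ⌊(w : ℝ) ^ s * (X : ℝ) ^ θ⌋₊ with Squarefree d,
      ((2 * (K + 1) : ℕ) : ℝ) ^ d.primeFactors.card * ‖Sd X u d (c d) α‖ ≤
      ∑ d ∈ Icc 1 ⌊(X : ℝ) ^ θ'⌋₊ with Squarefree d,
      ((2 * (K + 1) : ℕ) : ℝ) ^ d.primeFactors.card * ‖Sd X u d (c d) α‖ := by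
    apply Finset.sum_le_sum_of_subset_of_nonneg
    · apply Finset.filter_subset_filter
      exact Finset.Icc_subset_Icc le_rfl (Nat.floor_mono hws)
    · intro d _ _
      positivity
  have h2 := h1.trans (hES c hc)
  have hL0 : 0 < Real.log X := by linarith
  calc Real.log X ^ K * ∑ d ∈ Icc 1 ⌊(w : ℝ) ^ s * (X : ℝ) ^ θ⌋₊ with Squarefree d,
      ((2 * (K + 1) : ℕ) : ℝ) ^ d.primeFactors.card * ‖Sd X u d (c d) α‖
      ≤ Real.log X ^ K * (X / Real.log X ^ (A₁ + K)) :=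
        mul_le_mul_of_nonneg_left h2 (by positivity)
    _ = X / Real.log X ^ A₁ := by
        rw [pow_add]
        field_simp

lemma AT_Cf (Q : Finset ℕ) (ξ : Finset ℕ → ℝ) (K : ℕ) (G R : ℝ) (hG : 0 ≤ G) (h : Cf Q ξ K G R) :
    Cf Q ξ (K + 1) G R := by
  intro D hD
  obtain ⟨h1, h2⟩ := h D hD
  refine ⟨h1.trans ?_, h2⟩
  apply mul_le_mul_of_nonneg_right _ hG
  apply pow_le_pow_left₀ (Nat.cast_nonneg _)
  push_cast
  linarith

lemma AT_coef (Q : Finset ℕ) (ξ : Finset ℕ → ℝ) (K : ℕ) (L R : ℝ) (hL : 1 ≤ L)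
    (h : Cf Q ξ K (L ^ K) R) : ∀ D ⊆ Q, |ξ D| ≤ ((K + 1 : ℕ) : ℝ) ^ #D * L ^ (K + 1) := by
  intro D hD
  have h1 := (AT_Cf Q ξ K (L ^ K) R (by positivity) h D (Finset.mem_powerset.mpr hD)).1
  refine h1.trans ?_
  apply mul_le_mul_of_nonneg_left _ (by positivity)
  exact pow_le_pow_right₀ hL (by omega)

theorem AT (hTR0 : TR0_stmt) (hTR1 : TR1_stmt) (hTR2 : TR2_stmt) (hTR3 : TR3_stmt)
    (hES : ES_stmt) (hM2 : M2_stmt) (hCW : CW_stmt) : AT_stmt := by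
  intro θ₁ θ₂ h1 h1' h2 h2' h12 K A
  obtain ⟨C0, X0, hT0⟩ := hTR0 (K + 1)
  obtain ⟨S, X1, hT1⟩ := hTR1 (K + 1) (A + 1)
  obtain ⟨C1, hE⟩ := hES ((θ₁ + 1 / 3) / 2) ((θ₂ + 1 / 2) / 2) (by linarith) (by linarith)
    (by linarith) (by linarith) (2 * (K + 1)) (2 * A + C0 + 1 + K)
  obtain ⟨C2, hM⟩ := hM2 θ₁ θ₂ h1 h2 (by linarith) K (A + 1)
  refine ⟨max C1 C2, fun C hC => ?_⟩
  obtain ⟨X2, hE⟩ := hE C (le_trans (le_max_left _ _) hC)
  obtain ⟨X3, hM⟩ := hM C (le_trans (le_max_right _ _) hC)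
  have hev := ((AT_ws C S ((1 / 3 - θ₁) / 2) (by linarith)).and
    (AT_ws C S ((1 / 2 - θ₂) / 2) (by linarith))).and
    ((AT_cw hCW C).and ((AT_log.eventually_ge_atTop 48).and (Filter.eventually_ge_atTop 1)))
  obtain ⟨X4, hX4⟩ := Filter.eventually_atTop.mp hev
  refine ⟨max X0 (max X1 (max X2 (max X3 X4))), fun X hX Q₁ Q₂ hQ₁ hQ₂ ξ₁ ξ₂ hξ₁ hξ₂ => ?_⟩
  simp only [max_le_iff] at hX
  obtain ⟨hXa, hXb, hXc, hXd, hXe⟩ := hX
  obtain ⟨⟨hws1, hws2⟩, ⟨hcw0, hcw⟩, hL48, hX1⟩ := hX4 X hXe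
  have hT0 := hT0 X hXa
  have hT1 := hT1 X hXb
  have hE := hE X hXc
  have hM := hM X hXd Q₁ Q₂ hQ₁ hQ₂ ξ₁ ξ₂ hξ₁ hξ₂
  have hL1 : 1 ≤ Real.log X := by linarith
  have hw1 := (AT_wX X C hL1).2
  set w := wX X C with hwdef
  set L := Real.log X with hLdef
  set s := ⌈(S : ℝ) * Real.log L⌉₊ with hsdef
  have hL0 : 0 < L := by linarith
  have hXR : (1 : ℝ) ≤ X := by exact_mod_cast hX1
  have hX0 : (0 : ℝ) < X := by linarith
  have hs : (S : ℝ) * Real.log L ≤ s := Nat.le_ceil _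
  have hQ₁p : ∀ l ∈ Q₁, l.Prime := fun l hl => (hQ₁ l hl).1
  have hQ₂p : ∀ l ∈ Q₂, l.Prime := fun l hl => (hQ₂ l hl).1
  have hQ₁w : ∀ l ∈ Q₁, l.Prime ∧ w < l := fun l hl => ⟨(hQ₁ l hl).1, (hQ₁ l hl).2.1⟩
  have hQ₂w : ∀ l ∈ Q₂, l.Prime ∧ w < l := fun l hl => ⟨(hQ₂ l hl).1, (hQ₂ l hl).2.1⟩
  have hc₁ := AT_coef Q₁ ξ₁ K L _ hL1 hξ₁
  have hc₂ := AT_coef Q₂ ξ₂ K L _ hL1 hξ₂
  have hCf₁ := AT_Cf Q₁ ξ₁ K (L ^ K) _ (by positivity) hξ₁
  have hCf₂ := AT_Cf Q₂ ξ₂ K (L ^ K) _ (by positivity) hξ₂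
  have hLp : L ≤ L ^ (K + 1) := by
    calc L = L ^ 1 := (pow_one L).symm
      _ ≤ L ^ (K + 1) := pow_le_pow_right₀ hL1 (by omega)
  have hLam : ∀ n ∈ Icc 1 X, |vonMangoldt n| ≤ L ^ (K + 1) := by
    intro n hn
    rw [Finset.mem_Icc] at hn
    rw [abs_of_nonneg vonMangoldt_nonneg]
    refine vonMangoldt_le_log.trans (le_trans ?_ hLp)
    exact Real.log_le_log (by exact_mod_cast hn.1) (by exact_mod_cast hn.2)
  have hLw : ∀ n ∈ Icc 1 X, |Lw w n| ≤ L ^ (K + 1) := by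
    intro n _
    unfold Lw
    split_ifs
    · rw [abs_of_nonneg hcw0]
      exact hcw.trans hLp
    · rw [abs_zero]; positivity
  have hIoc : Ioc 0 X = Icc 1 X := by
    ext n; simp only [Finset.mem_Ioc, Finset.mem_Icc]; omega
  have hp1 : (w : ℝ) ^ s * (X : ℝ) ^ θ₁ ≤ (X : ℝ) ^ ((θ₁ + 1 / 3) / 2) := by
    calc (w : ℝ) ^ s * (X : ℝ) ^ θ₁ ≤ (X : ℝ) ^ ((1 / 3 - θ₁) / 2) * (X : ℝ) ^ θ₁ :=
          mul_le_mul_of_nonneg_right hws1 (by positivity)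
      _ = (X : ℝ) ^ ((θ₁ + 1 / 3) / 2) := by
          rw [← Real.rpow_add hX0]; congr 1; ring
  have hp2 : (w : ℝ) ^ s * (X : ℝ) ^ θ₂ ≤ (X : ℝ) ^ ((θ₂ + 1 / 2) / 2) := by
    calc (w : ℝ) ^ s * (X : ℝ) ^ θ₂ ≤ (X : ℝ) ^ ((1 / 2 - θ₂) / 2) * (X : ℝ) ^ θ₂ :=
          mul_le_mul_of_nonneg_right hws2 (by positivity)
      _ = (X : ℝ) ^ ((θ₂ + 1 / 2) / 2) := by
          rw [← Real.rpow_add hX0]; congr 1; ring
  have hp3 : (w : ℝ) ^ s * (X : ℝ) ^ θ₁ ≤ (X : ℝ) ^ ((θ₂ + 1 / 2) / 2) :=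
    hp1.trans (Real.rpow_le_rpow_of_exponent_le hXR (by linarith))
  -- the circle method
  set A₁ := 2 * A + C0 + 1 with hA₁
  have key := hTR2 X (fun n => vonMangoldt n * Bt w s n * Fv Q₁ ξ₁ n)
    (fun n => vonMangoldt n * Bt w s n * Fv Q₂ ξ₂ n)
    (fun n => Lw w n * Bt w s n * Fv Q₁ ξ₁ n) (fun n => Lw w n * Bt w s n * Fv Q₂ ξ₂ n)
    (X / L ^ A₁) (X * L ^ C0) (by positivity)
    (by
      intro α
      have := AT_exp hTR3 X w s K A₁ Q₁ ξ₁ (fun n => vonMangoldt n - Lw w n) α θ₁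
        ((θ₁ + 1 / 3) / 2) hw1 hL1 hX1 h1.le hQ₁w hCf₁ hp1 (hE α).1
      refine le_trans (le_of_eq ?_) this
      congr 1
      refine Finset.sum_congr rfl fun n _ => ?_
      congr 2
      ring)
    (by
      intro α
      rcases (hE α).2 with h | h
      · left
        have := AT_exp hTR3 X w s K A₁ Q₂ ξ₂ (fun n => vonMangoldt n - Lw w n) α θ₂
          ((θ₂ + 1 / 2) / 2) hw1 hL1 hX1 h2.le hQ₂w hCf₂ hp2 h
        refine le_trans (le_of_eq ?_) this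
        congr 1
        refine Finset.sum_congr rfl fun n _ => ?_
        congr 2
        ring
      · right
        exact AT_exp hTR3 X w s K A₁ Q₁ ξ₁ (Lw w) α θ₁
          ((θ₂ + 1 / 2) / 2) hw1 hL1 hX1 h1.le hQ₁w hCf₁ hp3 h)
    (by rw [hIoc]; exact hT0 w s Q₂ hQ₂p ξ₂ hc₂ _ hLam)
    (by rw [hIoc]; exact hT0 w s Q₁ hQ₁p ξ₁ hc₁ _ hLw)
    (by rw [hIoc]; exact hT0 w s Q₂ hQ₂p ξ₂ hc₂ _ hLw)
  -- counting
  set F := (Icc 1 X).filter fun N => (X : ℝ) / L ^ A <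
    |cv N (fun n => vonMangoldt n * sh w n * Fv Q₁ ξ₁ n)
        (fun n => vonMangoldt n * sh w n * Fv Q₂ ξ₂ n)
      - N * VN w N * Ev Q₁ ξ₁ * Ev Q₂ ξ₂| with hF
  have hbig : ∀ N ∈ F, (X / (2 * L ^ A)) ^ 2 ≤
      (cv N (fun n => vonMangoldt n * Bt w s n * Fv Q₁ ξ₁ n)
        (fun n => vonMangoldt n * Bt w s n * Fv Q₂ ξ₂ n) -
       cv N (fun n => Lw w n * Bt w s n * Fv Q₁ ξ₁ n)
        (fun n => Lw w n * Bt w s n * Fv Q₂ ξ₂ n)) ^ 2 := by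
    intro N hN
    rw [hF, Finset.mem_filter] at hN
    obtain ⟨hN1, hN2⟩ := hN
    have e1 := hT1 w s Q₁ Q₂ hs hQ₁p hQ₂p ξ₁ ξ₂ hc₁ hc₂ (fun n => vonMangoldt n) hLam N hN1
    have e2 := hT1 w s Q₁ Q₂ hs hQ₁p hQ₂p ξ₁ ξ₂ hc₁ hc₂ (Lw w) hLw N hN1
    have e3 := hM N hN1
    have hsmall : (X : ℝ) / L ^ (A + 1) ≤ X / L ^ A / 6 := by
      rw [pow_succ, div_div, div_le_div_iff₀ (by positivity) (by positivity)]
      have : L ^ A * 6 ≤ L ^ A * L := mul_le_mul_of_nonneg_left (by linarith) (by positivity)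
      nlinarith
    have hhalf : (X : ℝ) / (2 * L ^ A) = X / L ^ A / 2 := by
      rw [mul_comm, div_div]
    rw [hhalf]
    apply sq_le_sq.mpr
    rw [abs_of_nonneg (by positivity)]
    set p := cv N (fun n => vonMangoldt n * sh w n * Fv Q₁ ξ₁ n)
        (fun n => vonMangoldt n * sh w n * Fv Q₂ ξ₂ n)
    set p' := cv N (fun n => vonMangoldt n * Bt w s n * Fv Q₁ ξ₁ n)
        (fun n => vonMangoldt n * Bt w s n * Fv Q₂ ξ₂ n)
    set q' := cv N (fun n => Lw w n * Bt w s n * Fv Q₁ ξ₁ n)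
        (fun n => Lw w n * Bt w s n * Fv Q₂ ξ₂ n)
    set q := cv N (fun n => Lw w n * sh w n * Fv Q₁ ξ₁ n)
        (fun n => Lw w n * sh w n * Fv Q₂ ξ₂ n)
    have e4 := abs_le.mp e1
    have e5 := abs_le.mp e2
    have e6 := abs_le.mp e3
    rcases lt_abs.mp hN2 with h | h
    · refine le_trans ?_ (le_abs_self _)
      linarith [e4.1, e4.2, e5.1, e5.2, e6.1, e6.2]
    · refine le_trans ?_ (neg_le_abs _)
      linarith [e4.1, e4.2, e5.1, e5.2, e6.1, e6.2]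
  have hsum : (#F : ℝ) * (X / (2 * L ^ A)) ^ 2 ≤ 12 * (X / L ^ A₁) ^ 2 * (X * L ^ C0) := by
    refine le_trans ?_ key
    rw [← nsmul_eq_mul, ← Finset.sum_const]
    refine (Finset.sum_le_sum hbig).trans ?_
    apply Finset.sum_le_sum_of_subset_of_nonneg (Finset.filter_subset _ _)
    intro i _ _
    positivity
  -- conclusion
  rw [le_div_iff₀ (by positivity)]
  have hpow : 48 * (L ^ A * (L ^ A) ^ 2 * L ^ C0) ≤ (L ^ A₁) ^ 2 := by
    have e : (L ^ A₁) ^ 2 = (L ^ A * (L ^ A) ^ 2 * L ^ C0) * L ^ (A + C0 + 2) := by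
      rw [hA₁]
      simp only [← pow_mul, ← pow_add]
      congr 1
      ring
    rw [e, mul_comm]
    apply mul_le_mul_of_nonneg_left _ (by positivity)
    calc (48 : ℝ) ≤ L := hL48
      _ = L ^ 1 := (pow_one L).symm
      _ ≤ L ^ (A + C0 + 2) := pow_le_pow_right₀ hL1 (by omega)
  have hfin : (#F : ℝ) * L ^ A * (X ^ 2 * (L ^ A₁) ^ 2) ≤ X * (X ^ 2 * (L ^ A₁) ^ 2) := by
    have e1 : (#F : ℝ) * (X / (2 * L ^ A)) ^ 2 * (4 * (L ^ A) ^ 3 * (L ^ A₁) ^ 2) =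
        (#F : ℝ) * L ^ A * (X ^ 2 * (L ^ A₁) ^ 2) := by
      field_simp
      ring
    have e2 : 12 * (X / L ^ A₁) ^ 2 * (X * L ^ C0) * (4 * (L ^ A) ^ 3 * (L ^ A₁) ^ 2) =
        X * (X ^ 2 * (48 * (L ^ A * (L ^ A) ^ 2 * L ^ C0))) := by
      field_simp
      ring
    rw [← e1]
    refine (mul_le_mul_of_nonneg_right hsum (by positivity)).trans ?_
    rw [e2]
    apply mul_le_mul_of_nonneg_left _ hX0.le
    exact mul_le_mul_of_nonneg_left hpow (by positivity)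
  exact le_of_mul_le_mul_right hfin (by positivity)

end GD
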